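import Mathlib
import Pool.Agent.W484.CK.NCTate
import Pool.Agent.Q219.NW.Defs

/-!
# Noncommutative motives and abelian varieties without relations: definitions

The framework is that of the starting files (`Pool.Agent.W484.CK`).
-/

set_option autoImplicit false

open CategoryTheory AlgebraicGeometry

universe u v w

namespace Pool.Agent.Q219.NC

open Polynomial Pool.Agent.H914 Pool.Agent.H914.VarClass Pool.Agent.H914.VarClass.Obj
  Pool.Agent.W492.BB Pool.Agent.W484.CK Pool.Agent.Q219.NW

variable {k : Type u} [Field k] {𝒱 : VarClass k} {C : TheoryData.{u, v, 0} 𝒱 ℚ} {K : Type w}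
  [Field K] (H : WeilTheoryData.{u, v, w} C K) {A X Y Z : 𝒱.Obj}

/-- The eigenvalues of `π` on the cohomology of `Z` are roots of a nonzero rational polynomial all
of whose complex roots have small rank or small width, relative to the field with `q ^ s` elements
(`Allowed E r q s P`). -/
def EigenvaluesAllowed [CharZero K] (E : IntermediateField ℚ ℂ) (r : ℕ) (P : ℝ) (q s : ℕ)
    (π : Z ⟶ Z) : Prop :=
  ∃ χ : ℚ[X], χ ≠ 0 ∧ (∀ (ρ : K) (v : H.A Z), v ≠ 0 → H.up π v = ρ • v → aeval ρ χ = 0) ∧
    ∀ ρ : ℂ, aeval ρ χ = 0 → Allowed E r q s P ρ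

/-- The situation of the theorems: `πA` is the Frobenius endomorphism of an abelian variety `A` over
the field with `q ^ s` elements, isogenous to a product of powers of abelian varieties coming from
the field with `q` elements with characteristic polynomials `f i`; `Z` is any variety over the
field with `q ^ s` elements such that the eigenvalues of its Frobenius endomorphism `πZ` on the
cohomology have small rank or small width. -/
structure IsNarrow [CharZero K] (E : IntermediateField ℚ ℂ) (r : ℕ) (P : ℝ) (q s : ℕ) {I : Type}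
    (f : I → ℤ[X]) (πA : A ⟶ A) (πZ : Z ⟶ Z) : Prop where
  standard : IsStandard H
  pos : 0 < s
  abelian : IsAbelian H πA q s f
  allowed : EigenvaluesAllowed H E r P q s πZ

/-- `NCHomTimes E r P q f`: for the Chow groups `C` with rational coefficients of all classes `𝒱` of
varieties over fields `k` (finite, in the intended use), every Weil cohomology theory `H` with
coefficients in an algebraically closed field `K` of characteristic zero and all `A`, `Z` as in
`IsNarrow`, where the Frobenius endomorphism of `A × Z` acts on the Chow groups in the usual way,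
there are products `D j` of `deg j` divisor classes on `A`, finitely many, such that the following
holds for all direct summands `(Z, e)` of the noncommutative motive of `Z`: the Kunneth formula
`K_0(A × Z, 1 × e)_ℚ = ⨁ D j × K_0(Z, e)_ℚ` holds modulo homological equivalence, the same for the
kernels of the Euler pairings, and homological and numerical equivalence coincide on
`K_0(A × Z, 1 × e)_ℚ` if and only if they coincide on `K_0(Z, e)_ℚ`. -/
def NCHomTimes (E : IntermediateField ℚ ℂ) (r : ℕ) (P : ℝ) (q : ℕ) {I : Type} (f : I → ℤ[X]) :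
    Prop :=
  ∀ (k : Type) [Field k] (𝒱 : VarClass k) (C : TheoryData.{0, 0, 0} 𝒱 ℚ) [IsChow C],
    IsoInvariant C → ∀ (K : Type) [Field K] [IsAlgClosed K] [CharZero K]
    (H : WeilTheoryData.{0, 0, 0} C K) [IsWeil H] (s : ℕ) (A Z : 𝒱.Obj) (πA : A ⟶ A)
    (πZ : Z ⟶ Z), IsNarrow H E r P q s f πA πZ → IsFrobenius C (prodMap πA πZ) (q ^ s) →
      ∃ (J : Type) (_ : Fintype J) (deg : J → ℕ) (D : J → C.A A),
        (∀ j, DivisorProduct C (deg j) (D j)) ∧ ∀ e : C.A (Z.prod Z), IsIdempotent C e →
          HomKunneth H A e D ∧ (HomEqNum H (relative C A e) ↔ HomEqNum H e)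

/-- `NCTateTimes E r P q f`: for all data as in `NCHomTimes` (nothing is assumed about the action of
Frobenius on the Chow groups of `A × Z`) there are products `D j` of divisor classes on `A`,
finitely many, such that the following holds for all direct summands `(Z, e)` of the noncommutative
motive of `Z`: the Kunneth formula for the Frobenius invariants in the cohomology of
`(A × Z, 1 × e)` holds, and the Tate conjecture holds for `(A × Z, 1 × e)` if and only if it holds
for `(Z, e)`. -/
def NCTateTimes (E : IntermediateField ℚ ℂ) (r : ℕ) (P : ℝ) (q : ℕ) {I : Type} (f : I → ℤ[X]) :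
    Prop :=
  ∀ (k : Type) [Field k] (𝒱 : VarClass k) (C : TheoryData.{0, 0, 0} 𝒱 ℚ) [IsChow C],
    IsoInvariant C → ∀ (K : Type) [Field K] [IsAlgClosed K] [CharZero K]
    (H : WeilTheoryData.{0, 0, 0} C K) [IsWeil H] (s : ℕ) (A Z : 𝒱.Obj) (πA : A ⟶ A)
    (πZ : Z ⟶ Z), IsNarrow H E r P q s f πA πZ →
      ∃ (J : Type) (_ : Fintype J) (deg : J → ℕ) (D : J → C.A A),
        (∀ j, DivisorProduct C (deg j) (D j)) ∧ ∀ e : C.A (Z.prod Z), IsIdempotent C e →
          TateKunneth H πA πZ (q ^ s) e D ∧
            (NCTateConjecture H (prodMap πA πZ) (q ^ s) (relative C A e) ↔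
              NCTateConjecture H πZ (q ^ s) e)

/-- `NCNumTimes E r P q f`: for all data as in `NCHomTimes` such that homologically trivial
self-correspondences of degree zero of `A × Z` are nilpotent, there are products `D j` of divisor
classes on `A`, finitely many, such that the following holds for all direct summands `(Z, e)` of
the noncommutative motive of `Z`: the Kunneth formula
`K_0(A × Z, 1 × e)_ℚ = ⨁ D j × K_0(Z, e)_ℚ` holds, the same for the kernels of the Euler
pairings, and the Euler pairing of `K_0(A × Z, 1 × e)_ℚ` is nondegenerate if and only if the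
one of `K_0(Z, e)_ℚ` is. -/
def NCNumTimes (E : IntermediateField ℚ ℂ) (r : ℕ) (P : ℝ) (q : ℕ) {I : Type} (f : I → ℤ[X]) :
    Prop :=
  ∀ (k : Type) [Field k] (𝒱 : VarClass k) (C : TheoryData.{0, 0, 0} 𝒱 ℚ) [IsChow C],
    IsoInvariant C → ∀ (K : Type) [Field K] [IsAlgClosed K] [CharZero K]
    (H : WeilTheoryData.{0, 0, 0} C K) [IsWeil H] (s : ℕ) (A Z : 𝒱.Obj) (πA : A ⟶ A)
    (πZ : Z ⟶ Z), IsNarrow H E r P q s f πA πZ → IsFrobenius C (prodMap πA πZ) (q ^ s) →
      Nilpotence H (A.prod Z) →
      ∃ (J : Type) (_ : Fintype J) (deg : J → ℕ) (D : J → C.A A),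
        (∀ j, DivisorProduct C (deg j) (D j)) ∧ ∀ e : C.A (Z.prod Z), IsIdempotent C e →
          KZeroKunneth H A e D ∧ (IsNondegenerate H (relative C A e) ↔ IsNondegenerate H e)

/-- `NCTheoryTimes E r P q f`: for all `A`, `Z` as in `IsNarrow` such that homologically trivial
self-correspondences of degree zero of `A × Z` are nilpotent, there are products `D j` of divisor
classes on `A`, finitely many, such that the following holds for all theories `T` with rational
coefficients on which correspondences act, which are exhausted by the `T^i`, and such that the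
Frobenius endomorphism of `A × Z` acts on `T^i(A × Z)` as multiplication by `q ^ (s i)`, for
instance the `K`-groups `K_n` with their Adams decompositions, for every `n`, and all direct
summands `(Z, e)` of the noncommutative motive of `Z`: the Kunneth formula
`T(A × Z, 1 × e) = ⨁ D j × T(Z, e)` holds, and `T(A × Z, 1 × e) = 0` if and only if
`T(Z, e) = 0`. -/
def NCTheoryTimes (E : IntermediateField ℚ ℂ) (r : ℕ) (P : ℝ) (q : ℕ) {I : Type} (f : I → ℤ[X]) :
    Prop :=
  ∀ (k : Type) [Field k] (𝒱 : VarClass k) (C : TheoryData.{0, 0, 0} 𝒱 ℚ) [IsChow C],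
    IsoInvariant C → ∀ (K : Type) [Field K] [IsAlgClosed K] [CharZero K]
    (H : WeilTheoryData.{0, 0, 0} C K) [IsWeil H] (s : ℕ) (A Z : 𝒱.Obj) (πA : A ⟶ A)
    (πZ : Z ⟶ Z), IsNarrow H E r P q s f πA πZ → Nilpotence H (A.prod Z) →
      ∃ (J : Type) (_ : Fintype J) (deg : J → ℕ) (D : J → C.A A),
        (∀ j, DivisorProduct C (deg j) (D j)) ∧ ∀ T : MotivicData C, IsMotivic T →
          T.IsExhausted → ActsAsPower T (prodMap πA πZ) (q ^ s) →
            ∀ e : C.A (Z.prod Z), IsIdempotent C e →
              T.KunnethFor A e D ∧ (T.Trivial (relative C A e) ↔ T.Trivial e)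

/-- Beilinson's conjecture on the injectivity of the cycle maps for the smooth projective variety
`X`, where `T n` are the higher Chow groups `CH^*(X, n)` with rational coefficients, `n ≥ 1`: the
cycle class map on `CH^i(X)_ℚ` is injective for all `i`, and `CH^i(X, n)_ℚ = 0` for all `i` and
`n ≥ 1` (for `n ≥ 1` the target of the cycle map is zero, by the theorem of Deligne on weights). -/
def BeilinsonInjectivity (T : ℕ → MotivicData C) (X : 𝒱.Obj) : Prop :=
  RatEqHom H X ∧ ∀ n : ℕ, 0 < n → ∀ (i : ℤ) (m : (T n).M X), (T n).Deg i m → m = 0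

/-- `BeilinsonTimes E r P q f`: for all `A`, `Z` as in `IsNarrow` such that homologically trivial
self-correspondences of degree zero of `A × Z` are nilpotent and the Frobenius endomorphism of
`A × Z` acts on the Chow groups in the usual way, there are products `D j` of divisor
classes on `A`, finitely many, such that the Kunneth formula
`T^i(A × Z) = ⨁ D j × T^(i - deg j)(Z)` holds for all theories `T` with rational
coefficients on which correspondences act and such that the Frobenius endomorphism of `A × Z` acts
on `T^i(A × Z)` as multiplication by `q ^ (s i)`; and for every family `T n` of such theories (the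
higher Chow groups `CH^i(X, n)_ℚ`, `n ≥ 1`) the conjecture of Beilinson (`BeilinsonInjectivity`)
holds for `A × Z` if and only if it holds for `Z`. -/
def BeilinsonTimes (E : IntermediateField ℚ ℂ) (r : ℕ) (P : ℝ) (q : ℕ) {I : Type} (f : I → ℤ[X]) :
    Prop :=
  ∀ (k : Type) [Field k] (𝒱 : VarClass k) (C : TheoryData.{0, 0, 0} 𝒱 ℚ) [IsChow C]
    (K : Type) [Field K] [IsAlgClosed K] [CharZero K] (H : WeilTheoryData.{0, 0, 0} C K)
    [IsWeil H] (s : ℕ) (A Z : 𝒱.Obj) (πA : A ⟶ A) (πZ : Z ⟶ Z),
      IsNarrow H E r P q s f πA πZ → IsFrobenius C (prodMap πA πZ) (q ^ s) →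
      Nilpotence H (A.prod Z) →
        ∃ (J : Type) (_ : Fintype J) (deg : J → ℕ) (D : J → C.A A),
          (∀ j, DivisorProduct C (deg j) (D j)) ∧
          (∀ T : MotivicData C, IsMotivic T →
            ActsAsPower T (prodMap πA πZ) (q ^ s) → HasKunneth T A Z deg D) ∧
          ∀ T : ℕ → MotivicData C, (∀ n, 0 < n → IsMotivic (T n) ∧
            ActsAsPower (T n) (prodMap πA πZ) (q ^ s)) →
              (BeilinsonInjectivity H T (A.prod Z) ↔ BeilinsonInjectivity H T Z)

end Pool.Agent.Q219.NC
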