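import Mathlib
import Pool.Agent.W484.CK.NCTateMain
import Pool.Agent.Q219.NC.Defs
import Pool.Agent.Q219.NC.Kun

/-!
# Noncommutative motives and abelian varieties without relations: proofs
-/

set_option autoImplicit false
set_option linter.unusedSectionVars false
set_option linter.unusedVariables false

open CategoryTheory AlgebraicGeometry

universe u v w

namespace Pool.Agent.Q219.NC

open Module Polynomial Pool.Agent.H914 Pool.Agent.H914.VarClass Pool.Agent.H914.VarClass.Obj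
  Pool.Agent.W492.BB Pool.Agent.W484.CK Pool.Agent.Q219.NW Pool.Agent.W484.HS

variable (E : IntermediateField ℚ ℂ) (r : ℕ) (P : ℝ) {I : Type} {q : ℕ} (hq : 1 < q)
  {f : I → ℤ[X]} (hR : ∀ s : ℕ, 0 < s → NoRelAt f q s (Allowed E r q s P))

section aux

variable {k : Type u} [Field k] {𝒱 : VarClass k} {C : TheoryData.{u, v, 0} 𝒱 ℚ} {K : Type w}
  [Field K] [CharZero K] {H : WeilTheoryData.{u, v, w} C K} [hC : IsChow C] [hH : IsWeil H]
  {A Z X Y : 𝒱.Obj}

/-- from eigenvectors to generalized eigenvectors of order one -/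
theorem op_one {π : X ⟶ X} {c : K} {w : H.A X} (h : H.pull π w = c • w) :
    Pool.Agent.W484.CH.op (Pool.Agent.W484.CH.frob H π) c 1 w = 0 := by
  rw [Pool.Agent.W484.CH.op, pow_one, LinearMap.sub_apply, LinearMap.smul_apply, Module.End.one_apply, sub_eq_zero]
  exact h

end aux

include hq hR

theorem ncHomTimes : NCHomTimes E r P q f := by
  intro k _ 𝒱 C _ hI K _ _ _ H _ s A Z πA πZ hsit hF
  obtain ⟨J, hJ, deg, D, E', hne, hdual, hD, hE, hK, -⟩ := kunneth_full hq (hR s hsit.pos)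
    (isStandard_bridge hsit.standard) hsit.pos (isAbelian_bridge hsit.abelian)
    (πZ := πZ) hsit.allowed
  have hK' := fun (i : ℤ) (w : H.A (A.prod Z))
    (hw : H.pull (prodMap πA πZ) w = ((q ^ s : ℕ) : K) ^ i • w) => (hK i 1 w (op_one hw)).1
  exact ⟨J, hJ, deg, D, hD, fun e he => ⟨homKunneth_of hdual hF hK' hI he,
    homEqNum_iff hdual hF hK' hI he⟩⟩

theorem ncTateTimes : NCTateTimes E r P q f := by
  intro k _ 𝒱 C _ hI K _ _ _ H _ s A Z πA πZ hsit
  obtain ⟨J, hJ, deg, D, E', hne, hdual, hD, hE, hK, -⟩ := kunneth_full hq (hR s hsit.pos)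
    (isStandard_bridge hsit.standard) hsit.pos (isAbelian_bridge hsit.abelian)
    (πZ := πZ) hsit.allowed
  have hK' := fun (i : ℤ) (w : H.A (A.prod Z))
    (hw : H.pull (prodMap πA πZ) w = ((q ^ s : ℕ) : K) ^ i • w) => (hK i 1 w (op_one hw)).1
  have hQ : q ^ s ≠ 0 := pow_ne_zero _ (by omega)
  have hπA := isFrobenius_bridge hsit.abelian.frobenius
  exact ⟨J, hJ, deg, D, hD, fun e he => ⟨tateKunneth_of hI hdual hQ hπA hK' e,
    ncTate_iff hI hdual hQ hπA hK' he⟩⟩

theorem ncNumTimes : NCNumTimes E r P q f := by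
  intro k _ 𝒱 C _ hI K _ _ _ H _ s A Z πA πZ hsit hF hnil
  obtain ⟨J, hJ, deg, D, E', hne, hdual, hD, hE, -, hK⟩ := kunneth_full hq (hR s hsit.pos)
    (isStandard_bridge hsit.standard) hsit.pos (isAbelian_bridge hsit.abelian)
    (πZ := πZ) hsit.allowed
  have hT' := fun i m hm => (hK (nilpotence_bridge hnil) (toCorr (chowMot C))
    (toCorr_isCorrTheory chowMot_isMotivic)
    (toCorr_actsAsPower (chowMot_actsAsPower hF)) i m hm).1
  exact ⟨J, hJ, deg, D, hD, fun e _ => ⟨kzeroKunneth_of hdual hI hT' e,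
    nondegenerate_iff hdual hI hT' e⟩⟩

theorem ncTheoryTimes : NCTheoryTimes E r P q f := by
  intro k _ 𝒱 C _ hI K _ _ _ H _ s A Z πA πZ hsit hnil
  obtain ⟨J, hJ, deg, D, E', hne, hdual, hD, hE, -, hK⟩ := kunneth_full hq (hR s hsit.pos)
    (isStandard_bridge hsit.standard) hsit.pos (isAbelian_bridge hsit.abelian)
    (πZ := πZ) hsit.allowed
  refine ⟨J, hJ, deg, D, hD, fun T hT hex hπ e _ => ?_⟩
  have hT' := fun i m hm => (hK (nilpotence_bridge hnil) (toCorr T) (toCorr_isCorrTheory hT)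
    (toCorr_actsAsPower hπ) i m hm).1
  exact ⟨kunnethFor_of hI hT hdual hex hT' e, trivial_iff hI hT hdual hex hT' e⟩

theorem beilinsonTimes : BeilinsonTimes E r P q f := by
  intro k _ 𝒱 C _ K _ _ _ H _ s A Z πA πZ hsit hF hnil
  obtain ⟨J, hJ, deg, D, E', hne, hdual, hD, hE, -, hK⟩ := kunneth_full hq (hR s hsit.pos)
    (isStandard_bridge hsit.standard) hsit.pos (isAbelian_bridge hsit.abelian)
    (πZ := πZ) hsit.allowed
  have hkun : ∀ T : MotivicData C, IsMotivic T →
      ActsAsPower T (prodMap πA πZ) (q ^ s) → HasKunneth T A Z deg D := fun T hT hπ =>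
    Pool.Agent.W484.CH.hasKunneth_of hdual (toCorr_isCorrTheory hT) (fun i m hm =>
      (hK (nilpotence_bridge hnil) (toCorr T) (toCorr_isCorrTheory hT)
        (toCorr_actsAsPower hπ) i m hm).1)
  have h1 : Pool.Agent.W484.CH.HasKunneth (Pool.Agent.W484.CH.chowData C) A Z deg D := Pool.Agent.W484.CH.hasKunneth_of hdual
    Pool.Agent.W484.CH.chowData_isCorrTheory (fun i m hm => (hK (nilpotence_bridge hnil) (Pool.Agent.W484.CH.chowData C)
      Pool.Agent.W484.CH.chowData_isCorrTheory (Pool.Agent.W484.CH.chowData_actsAsPower (isFrobenius_bridge hF)) i m hm).1)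
  refine ⟨J, hJ, deg, D, hD, hkun, fun T hT => ?_⟩
  refine and_congr (Pool.Agent.W484.CH.ratEqHom_iff hdual h1) (forall_congr' fun n => forall_congr' fun hn => ?_)
  have h2 : Pool.Agent.W484.CH.HasKunneth (toCorr (T n)) A Z deg D := hkun (T n) (hT n hn).1 (hT n hn).2
  have h3 := fun N : ℤ => Pool.Agent.W484.CH.vanish_iff (toCorr_isCorrTheory (hT n hn).1) h2 N
  constructor
  · intro h i m hm
    have h4 := (h3 i).1 fun l _ => (Submodule.eq_bot_iff _).2 fun m hm => h l m hm
    exact (Submodule.eq_bot_iff _).1 (h4 i le_rfl) m hm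
  · intro h i m hm
    have h4 := (h3 i).2 fun l _ => (Submodule.eq_bot_iff _).2 fun m hm => h l m hm
    exact (Submodule.eq_bot_iff _).1 (h4 i le_rfl) m hm

end Pool.Agent.Q219.NC
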